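import Pool.Agent.helper63.NU.Defs3
import Pool.Agent.helper13.NU.G1

set_option autoImplicit false
set_option linter.all false

/-! # NU-Q1 (helper45): stability in the entropy inequality.

As in `helper13/NU/G1` (polar coordinates for the sup norm, Gibbs inequality, Chebyshev on each ray)
with an additional term `κ/c^n` counting the cells. -/

open MeasureTheory Filter Topology Set
open scoped ContDiff Manifold Matrix ENNReal ComplexOrder

noncomputable section

namespace Pool.Agent.helper63.NU.Q1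
open Pool.Agent.helper63.NU.G1

theorem ray_pt' {n : ℕ} (hn : 0 < n) {a c R r y z : ℝ} (ha : 0 < a) (hc : 0 < c) (hR : 0 < R) (hy : 0 ≤ y)
    (hz : z * ((n+1) * r - n * R) ≤ y * ((n+1) * r - n * R)) :
    Real.negMulLog y ≤ y * ((n * Real.log c - Real.log (n.factorial) - n - 1) + ((n+1)/c) * (r * a))
      + (n.factorial / (R * a) ^ n) * Real.exp (-(n * (R * a / c - 1 - Real.log (R * a / c))))
      - (a / c) * (z * ((n+1) * r - n * R)) := by
  set D : ℝ := R * a / c - 1 - Real.log (R * a / c) with hD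
  set Q : ℝ := n.factorial / (R * a) ^ n * Real.exp (-(n * D)) with hQ
  have hQ0 : 0 < Q := by positivity
  have h1 : Real.negMulLog y ≤ - y * Real.log Q + Q - y := by
    rcases hy.eq_or_lt with h | h
    · rw [← h]; simp [Real.negMulLog]; exact hQ0.le
    · have h2 := Real.log_le_sub_one_of_pos (div_pos hQ0 h)
      rw [Real.log_div hQ0.ne' h.ne'] at h2
      have h3 := mul_le_mul_of_nonneg_left h2 h.le
      have h4 : y * (Q / y - 1) = Q - y := by field_simp
      rw [h4] at h3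
      simp only [Real.negMulLog]
      linarith
  have h5 : - Real.log Q = - Real.log (n.factorial) + n * Real.log c + n * (R * a / c - 1) := by
    rw [hQ, Real.log_mul (by positivity) (Real.exp_pos _).ne', Real.log_exp,
      Real.log_div (by positivity) (by positivity), Real.log_pow, hD,
      Real.log_div (x := R * a) (by positivity) (by positivity)]
    ring
  have h8 : y * - Real.log Q = y * (- Real.log (n.factorial) + n * Real.log c + n * (R * a / c - 1)) := by
    rw [h5]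
  have h9 := mul_le_mul_of_nonneg_left hz (div_pos ha hc).le
  have h10 : y * (n * (R * a / c - 1)) = y * (((n+1)/c) * (r * a)) - n * y - (a / c) * (y * ((n+1) * r - n * R)) := by
    field_simp; ring
  nlinarith

theorem ray_ineq' {n : ℕ} (hn : 0 < n) {a c R C κ ε Y : ℝ} (ha : 0 < a) (hc : 0 < c) (hR : 0 < R)
    (hκ : 0 ≤ κ) (hRY : R * a ≤ Y * c)
    (hκY : ∀ y, 0 < y → y ≤ Y → κ / n * (y ^ n - 1) ≤
      (n-1).factorial * (1 - Real.exp (-(n * (y - 1 - Real.log y)))) + κ * ε)
    (φ : ℝ → ℝ) (hm : Measurable φ) (h0 : ∀ r ∈ Ioo 0 R, 0 ≤ φ r) (h1 : ∀ r ∈ Ioo 0 R, φ r ≤ 1)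
    (hmono : ∀ r ∈ Ioo 0 R, ∀ r' ∈ Ioo 0 R, r ≤ r' → φ r ≤ φ r') (K : ℝ)
    (hK : K = n * Real.log c - Real.log (n.factorial) - n - 1) :
    IntegrableOn (fun r => r ^ (n-1) * (Real.negMulLog (φ r) + κ / c ^ n)) (Ioo 0 R) ∧
    IntegrableOn (fun r => r ^ (n-1) * (φ r * (C + ((n+1)/c) * (r * a)))) (Ioo 0 R) ∧
    IntegrableOn (fun r => r ^ (n-1) * φ r) (Ioo 0 R) ∧
    ∫ r in Ioo 0 R, r ^ (n-1) * (Real.negMulLog (φ r) + κ / c ^ n) ≤
      (∫ r in Ioo 0 R, r ^ (n-1) * (φ r * (K + ((n+1)/c) * (r * a))))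
        + (1 + κ / n.factorial + κ * ε / (n-1).factorial) * ((n-1).factorial / a ^ n) := by
  have hbd : ∀ ψ : ℝ → ℝ, Measurable ψ → ∀ D : ℝ, (∀ r ∈ Ioo 0 R, |ψ r| ≤ D) → IntegrableOn ψ (Ioo 0 R) := by
    intro ψ hψ D hD
    refine Measure.integrableOn_of_bounded (M := D) (by simp) hψ.aestronglyMeasurable ?_
    filter_upwards [ae_restrict_mem measurableSet_Ioo] with r hr
    exact hD r hr
  have hpow : ∀ r ∈ Ioo 0 R, 0 ≤ r ^ (n-1) ∧ r ^ (n-1) ≤ R ^ (n-1) := fun r hr =>
    ⟨pow_nonneg hr.1.le _, pow_le_pow_left₀ hr.1.le hr.2.le _⟩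
  have hI1 : IntegrableOn (fun r => r ^ (n-1) * (Real.negMulLog (φ r) + κ / c ^ n)) (Ioo 0 R) := by
    refine hbd _ (by fun_prop) (R ^ (n-1) * (1 + κ / c ^ n)) fun r hr => ?_
    have hkc : 0 ≤ κ / c ^ n := by positivity
    have hnn := Real.negMulLog_nonneg (h0 r hr) (h1 r hr)
    rw [abs_mul, abs_of_nonneg (hpow r hr).1]
    refine mul_le_mul (hpow r hr).2 ?_ (abs_nonneg _) (pow_nonneg hR.le _)
    rw [abs_of_nonneg (by positivity)]
    have := Real.negMulLog_le_one_sub_self (h0 r hr)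
    linarith [h0 r hr]
  have hI2 : ∀ C : ℝ, IntegrableOn (fun r => r ^ (n-1) * (φ r * (C + ((n+1)/c) * (r * a)))) (Ioo 0 R) := by
    intro C
    refine hbd _ (by fun_prop) (R ^ (n-1) * (1 * (|C| + ((n+1)/c) * (R * a)))) fun r hr => ?_
    rw [abs_mul, abs_of_nonneg (hpow r hr).1, abs_mul, abs_of_nonneg (h0 r hr)]
    have h3 : |C + ((n+1)/c) * (r * a)| ≤ |C| + ((n+1)/c) * (R * a) := by
      refine (abs_add_le _ _).trans ?_
      rw [abs_of_nonneg (a := ((n:ℝ)+1)/c * (r * a)) (by have := hr.1; positivity)]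
      have := hr.2.le
      gcongr
    have h4 : 0 ≤ ((n:ℝ)+1)/c * (R * a) := by positivity
    refine mul_le_mul (hpow r hr).2 (mul_le_mul (h1 r hr) h3 (abs_nonneg _) zero_le_one) ?_ (pow_nonneg hR.le _)
    exact mul_nonneg (h0 r hr) (abs_nonneg _)
  have hI3 : IntegrableOn (fun r => r ^ (n-1) * φ r) (Ioo 0 R) := by
    refine hbd _ (by fun_prop) (R ^ (n-1) * 1) fun r hr => ?_
    rw [abs_mul, abs_of_nonneg (hpow r hr).1, abs_of_nonneg (h0 r hr)]
    exact mul_le_mul (hpow r hr).2 (h1 r hr) (h0 r hr) (pow_nonneg hR.le _)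
  refine ⟨hI1, hI2 C, hI3, ?_⟩
  set X : ℝ := Real.exp (-(n * (R * a / c - 1 - Real.log (R * a / c)))) with hX
  set Q : ℝ := n.factorial / (R * a) ^ n * X + κ / c ^ n with hQ
  set rs : ℝ := n * R / (n + 1) with hrs
  have hn' : (0:ℝ) < n := by exact_mod_cast hn
  have hrs0 : rs ∈ Ioo 0 R := by
    constructor
    · positivity
    · rw [hrs, div_lt_iff₀ (by positivity)]; nlinarith
  set z := φ rs
  have hpt : ∀ r ∈ Ioo 0 R, r ^ (n-1) * (Real.negMulLog (φ r) + κ / c ^ n) ≤
      r ^ (n-1) * (φ r * (K + ((n+1)/c) * (r * a))) + (Q * r ^ (n-1) - (a / c * z) * ((n+1) * r ^ n - n * R * r ^ (n-1))) := by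
    intro r hr
    have hz : z * ((n+1) * r - n * R) ≤ φ r * ((n+1) * r - n * R) := by
      rcases le_total rs r with h | h
      · have := hmono rs hrs0 r hr h
        refine mul_le_mul_of_nonneg_right this ?_
        rw [hrs, div_le_iff₀ (by positivity)] at h
        linarith
      · have := hmono r hr rs hrs0 h
        refine mul_le_mul_of_nonpos_right this ?_
        rw [hrs, le_div_iff₀ (by positivity)] at h
        linarith
    have h3 := mul_le_mul_of_nonneg_left
      (add_le_add_left (ray_pt' hn ha hc hR (h0 r hr) hz) (κ / c ^ n)) (hpow r hr).1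
    refine h3.trans (le_of_eq ?_)
    rw [← hX, ← hK, hQ]
    obtain ⟨m, rfl⟩ : ∃ m, n = m + 1 := ⟨n - 1, by omega⟩
    simp only [Nat.add_sub_cancel]
    ring
  have hI4 : IntegrableOn (fun r : ℝ => Q * r ^ (n-1) - (a / c * z) * ((n+1) * r ^ n - n * R * r ^ (n-1))) (Ioo 0 R) := by
    refine (Continuous.integrableOn_Icc (by fun_prop)).mono_set Ioo_subset_Icc_self
  have hval : ∫ r in Ioo 0 R, (Q * r ^ (n-1) - (a / c * z) * ((n+1) * r ^ n - n * R * r ^ (n-1)))
      = Q * (R ^ n / n) := by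
    rw [← integral_Ioc_eq_integral_Ioo, ← intervalIntegral.integral_of_le hR.le]
    obtain ⟨m, rfl⟩ : ∃ m, n = m + 1 := ⟨n - 1, by omega⟩
    simp only [Nat.add_sub_cancel]
    have hder : ∀ x ∈ uIcc 0 R, HasDerivAt (fun x : ℝ => Q * (x ^ (m+1) / (m+1)) - (a / c * z) * (x ^ (m+1+1) - R * x ^ (m+1)))
        (Q * x ^ m - (a / c * z) * (((m+1 : ℕ) + 1) * x ^ (m+1) - (m+1 : ℕ) * R * x ^ m)) x := by
      intro x _
      have e1 := hasDerivAt_pow (m+1) x
      have e2 := hasDerivAt_pow (m+1+1) x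
      have e3 := ((e1.div_const ((m:ℝ)+1)).const_mul Q).sub ((e2.sub (e1.const_mul R)).const_mul (a / c * z))
      refine e3.congr_deriv ?_
      have hm1 : (m:ℝ) + 1 ≠ 0 := by positivity
      simp only [Nat.add_sub_cancel]
      push_cast
      field_simp
    rw [intervalIntegral.integral_eq_sub_of_hasDerivAt hder (Continuous.intervalIntegrable (by fun_prop) _ _)]
    push_cast
    ring
  have hfin : Q * (R ^ n / n) ≤
      (1 + κ / n.factorial + κ * ε / (n-1).factorial) * ((n-1).factorial / a ^ n) := by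
    have hy0 : 0 < R * a / c := by positivity
    have hyY : R * a / c ≤ Y := by rwa [div_le_iff₀ hc]
    have hk := hκY _ hy0 hyY
    rw [← hX] at hk
    have hfac : (n.factorial : ℝ) = n * (n-1).factorial := by
      obtain ⟨m, rfl⟩ : ∃ m, n = m + 1 := ⟨n - 1, by omega⟩
      rw [Nat.factorial_succ]; push_cast; simp
    have e1 : Q * (R ^ n / n) = ((n-1).factorial * X + κ / n * (R * a / c) ^ n) / a ^ n := by
      rw [hQ, hfac, mul_pow, div_pow, mul_pow]
      field_simp
    have e2 : (1 + κ / n.factorial + κ * ε / (n-1).factorial) * ((n-1).factorial / a ^ n)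
        = ((n-1).factorial + κ / n + κ * ε) / a ^ n := by
      rw [hfac]
      have : ((n-1).factorial : ℝ) ≠ 0 := by positivity
      field_simp
    rw [e1, e2]
    refine div_le_div_of_nonneg_right ?_ (by positivity)
    have e3 : κ / n * ((R * a / c) ^ n - 1) = κ / n * (R * a / c) ^ n - κ / n := by ring
    have e4 : ((n-1).factorial : ℝ) * (1 - X) = (n-1).factorial - (n-1).factorial * X := by ring
    rw [e3, e4] at hk
    linarith
  calc ∫ r in Ioo 0 R, r ^ (n-1) * (Real.negMulLog (φ r) + κ / c ^ n) ≤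
      ∫ r in Ioo 0 R, (r ^ (n-1) * (φ r * (K + ((n+1)/c) * (r * a))) + (Q * r ^ (n-1) - (a / c * z) * ((n+1) * r ^ n - n * R * r ^ (n-1)))) :=
        setIntegral_mono_on hI1 ((hI2 K).add hI4) measurableSet_Ioo hpt
    _ = (∫ r in Ioo 0 R, r ^ (n-1) * (φ r * (K + ((n+1)/c) * (r * a)))) + Q * (R ^ n / n) := by
        rw [integral_add (hI2 K) hI4, hval]
    _ ≤ _ := by gcongr

theorem entropy_stab_aux {n : ℕ} (hn : 0 < n) (B : Finset (Fin n → ℕ))
    (hB : ∀ α ∈ B, ∀ β, β ≤ α → β ∈ B) (g : (Fin n → ℕ) → ℝ) (hg0 : ∀ α ∈ B, 0 ≤ g α)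
    (hg1 : ∑ α ∈ B, g α = 1) (hmono : ∀ α ∈ B, ∀ β ∈ B, α ≤ β → g α ≤ g β) {c K κ ε Y : ℝ}
    (hc : 0 < c) (hκ : 0 ≤ κ) (hε : 0 ≤ ε) (hBY : ∀ α ∈ B, (∑ i, (α i : ℝ)) + n ≤ Y * c)
    (hκY : ∀ y, 0 < y → y ≤ Y → κ / n * (y ^ n - 1) ≤
      (n-1).factorial * (1 - Real.exp (-(n * (y - 1 - Real.log y)))) + κ * ε)
    (hK : K = n * Real.log c - Real.log (n.factorial) - n - 1) :
    (∑ α ∈ B, Real.negMulLog (g α)) + B.card * (κ / c ^ n) ≤
      K + ((n+1)/c) * ((∑ α ∈ B, g α * (∑ i, (α i : ℝ))) + n)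
        + (1 + κ / n.factorial + κ * ε / (n-1).factorial) := by
  classical
  set Θ : ℝ := 1 + κ / n.factorial + κ * ε / (n-1).factorial with hΘ
  have hΘ0 : 0 ≤ Θ := by positivity
  have hkc : 0 ≤ κ / c ^ n := by positivity
  have hgle : ∀ α ∈ B, g α ≤ 1 := fun α hα => by
    rw [← hg1]; exact Finset.single_le_sum (f := g) hg0 hα
  have hBne : B.Nonempty := by
    rcases B.eq_empty_or_nonempty with h | h
    · rw [h] at hg1; simp at hg1
    · exact h
  have h0B : (0 : Fin n → ℕ) ∈ B := by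
    obtain ⟨α, hα⟩ := hBne
    exact hB α hα 0 (fun i => Nat.zero_le _)
  set Km : ℝ := max (-K) 0 with hKm
  set Kp : ℝ := max K 0 with hKp
  have hKK : K = Kp - Km := by
    rw [hKm, hKp]
    rcases le_total K 0 with h | h
    · rw [max_eq_right h, max_eq_left (by linarith)]; ring
    · rw [max_eq_left h, max_eq_right (by linarith)]; ring
  have hKm0 : 0 ≤ Km := le_max_right _ _
  have hKp0 : 0 ≤ Kp := le_max_right _ _
  set cond : (Fin n → ℝ) → Prop := fun x => (∀ i, 0 ≤ x i) ∧ (fun i => ⌊x i⌋₊) ∈ B with hcond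
  have hflm : Measurable (fun x : Fin n → ℝ => fun i => ⌊x i⌋₊) := by
    refine measurable_pi_iff.2 fun i => ?_
    exact Nat.measurable_floor.comp (measurable_pi_apply i)
  have hcm : MeasurableSet {x | cond x} := by
    refine MeasurableSet.inter (s₁ := {x : Fin n → ℝ | ∀ i, 0 ≤ x i}) ?_ ?_
    · simp only [setOf_forall]
      exact MeasurableSet.iInter fun i => measurableSet_le measurable_const (by fun_prop)
    · exact hflm (B.measurableSet)
  have hgm : Measurable g := measurable_of_countable _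
  set F1 : (Fin n → ℝ) → ℝ≥0∞ := fun x => if cond x then
    ENNReal.ofReal (Real.negMulLog (g (fun i => ⌊x i⌋₊)) + κ / c ^ n + Km * g (fun i => ⌊x i⌋₊)) else 0 with hF1
  set F2 : (Fin n → ℝ) → ℝ≥0∞ := fun x => if cond x then
    ENNReal.ofReal (g (fun i => ⌊x i⌋₊) * (Kp + ((n+1)/c) * ∑ i, x i)) else 0 with hF2
  have hF1m : Measurable F1 := by
    refine Measurable.ite hcm ?_ measurable_const
    refine ENNReal.measurable_ofReal.comp ?_
    exact ((Real.continuous_negMulLog.measurable.comp (hgm.comp hflm)).add_const _).add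
      ((hgm.comp hflm).const_mul _)
  have hF2m : Measurable F2 := by
    refine Measurable.ite hcm ?_ measurable_const
    refine ENNReal.measurable_ofReal.comp ?_
    exact (hgm.comp hflm).mul (by fun_prop)
  -- the inequality on the rays
  have hray : ∀ s : Metric.sphere (0 : Fin n → ℝ) 1,
      ∫⁻ r in Ioi (0:ℝ), ENNReal.ofReal (r ^ (n-1)) * F1 (r • s.1) ≤
      (∫⁻ r in Ioi (0:ℝ), ENNReal.ofReal (r ^ (n-1)) * F2 (r • s.1)) +
        ENNReal.ofReal Θ * (if ∀ i, 0 ≤ s.1 i then ENNReal.ofReal ((n-1).factorial / (∑ i, s.1 i) ^ n) else 0) := by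
    intro s
    by_cases hs : ∀ i, 0 ≤ s.1 i
    swap
    · have : ∫⁻ r in Ioi (0:ℝ), ENNReal.ofReal (r ^ (n-1)) * F1 (r • s.1) = 0 := by
        rw [setLIntegral_congr_fun (g := fun _ => 0) measurableSet_Ioi]
        · simp
        · intro r hr
          simp only [hF1]
          rw [if_neg]
          · simp
          · rintro ⟨h, _⟩
            refine hs fun i => ?_
            have := h i
            simp only [Pi.smul_apply, smul_eq_mul] at this
            exact nonneg_of_mul_nonneg_right this hr.out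
      rw [this]
      exact zero_le
    rw [if_pos hs]
    have hnorm : ‖s.1‖ = 1 := by simpa using s.2
    set a : ℝ := ∑ i, s.1 i with ha
    have ha0 : 0 < a := sum_pos_sphere hnorm hs
    set T : Set ℝ := {r | 0 < r ∧ (fun i => ⌊r * s.1 i⌋₊) ∈ B} with hT
    have hTd : ∀ r ∈ T, ∀ r', 0 < r' → r' ≤ r → r' ∈ T := by
      intro r hr r' h0 h1
      refine ⟨h0, hB _ hr.2 _ fun i => ?_⟩
      exact Nat.floor_mono (mul_le_mul_of_nonneg_right h1 (hs i))
    have hsle : ∀ i, s.1 i ≤ 1 := fun i => by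
      have := norm_le_pi_norm s.1 i
      rw [hnorm, Real.norm_eq_abs] at this
      exact (le_abs_self _).trans this
    have hhalf : (1/2 : ℝ) ∈ T := by
      refine ⟨by norm_num, ?_⟩
      convert h0B using 1
      funext i
      simp only [Pi.zero_apply]
      rw [Nat.floor_eq_zero]
      linarith [hsle i]
    have hTY : ∀ r ∈ T, r ≤ Y * c / a := by
      intro r hr
      rw [le_div_iff₀ ha0]
      have h1 := hBY _ hr.2
      have h2 : r * a ≤ ∑ i, ((⌊r * s.1 i⌋₊ : ℕ) + (1:ℝ)) := by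
        rw [ha, Finset.mul_sum]
        exact Finset.sum_le_sum fun i _ => (Nat.lt_floor_add_one _).le
      rw [Finset.sum_add_distrib] at h2
      simp at h2
      linarith
    have hTb : BddAbove T := ⟨Y * c / a, hTY⟩
    set R : ℝ := sSup T with hR
    have hR0 : 0 < R := lt_of_lt_of_le (by norm_num) (le_csSup hTb hhalf)
    have hRY : R * a ≤ Y * c := by
      rw [← le_div_iff₀ ha0]
      exact csSup_le ⟨_, hhalf⟩ hTY
    have hTR : ∀ r ∈ T, r ≤ R := fun r hr => le_csSup hTb hr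
    have hRT : ∀ r ∈ Ioo 0 R, r ∈ T := by
      intro r hr
      obtain ⟨r', hr', hlt⟩ := exists_lt_of_lt_csSup ⟨_, hhalf⟩ hr.2
      exact hTd r' hr' r hr.1 hlt.le
    set φ : ℝ → ℝ := fun r => g (fun i => ⌊r * s.1 i⌋₊) with hφ
    have hφm : Measurable φ := by
      refine hgm.comp (measurable_pi_iff.2 fun i => ?_)
      exact Nat.measurable_floor.comp (by fun_prop)
    have hφ0 : ∀ r ∈ Ioo 0 R, 0 ≤ φ r := fun r hr => hg0 _ (hRT r hr).2
    have hφ1 : ∀ r ∈ Ioo 0 R, φ r ≤ 1 := fun r hr => hgle _ (hRT r hr).2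
    have hφmono : ∀ r ∈ Ioo 0 R, ∀ r' ∈ Ioo 0 R, r ≤ r' → φ r ≤ φ r' := by
      intro r hr r' hr' h
      refine hmono _ (hRT r hr).2 _ (hRT r' hr').2 fun i => ?_
      exact Nat.floor_mono (mul_le_mul_of_nonneg_right h (hs i))
    obtain ⟨i1, i2, i3, hmain⟩ := ray_ineq' hn (C := Kp) ha0 hc hR0 hκ hRY hκY φ hφm hφ0 hφ1 hφmono K hK
    obtain ⟨_, i4, _, _⟩ := ray_ineq' hn (C := K) ha0 hc hR0 hκ hRY hκY φ hφm hφ0 hφ1 hφmono K hK
    have hsm : ∀ r : ℝ, (fun i => ⌊(r • s.1) i⌋₊) = fun i => ⌊r * s.1 i⌋₊ := fun r => rfl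
    have hcT : ∀ r : ℝ, 0 < r → (cond (r • s.1) ↔ r ∈ T) := by
      intro r hr
      constructor
      · intro h; exact ⟨hr, h.2⟩
      · intro h; exact ⟨fun i => by simpa using mul_nonneg hr.le (hs i), h.2⟩
    have e1 : ∫⁻ r in Ioi (0:ℝ), ENNReal.ofReal (r ^ (n-1)) * F1 (r • s.1)
        = ENNReal.ofReal (∫ r in Ioo 0 R, (r ^ (n-1) * (Real.negMulLog (φ r) + κ / c ^ n) + Km * (r ^ (n-1) * φ r))) := by
      rw [ofReal_integral_eq_lintegral_ofReal]
      · rw [← lintegral_indicator measurableSet_Ioi, ← lintegral_indicator measurableSet_Ioo]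
        refine lintegral_congr_ae ?_
        have hR' : ∀ᵐ r : ℝ, r ≠ R := by
          simp [ae_iff]
        filter_upwards [hR'] with r hrR
        by_cases h1 : r ∈ Ioo 0 R
        · rw [indicator_of_mem h1, indicator_of_mem (by exact h1.1)]
          simp only [hF1]
          rw [if_pos ((hcT r h1.1).2 (hRT r h1)), ← ENNReal.ofReal_mul (pow_nonneg h1.1.le _)]
          congr 1
          simp only [hφ, hsm]
          ring
        · rw [indicator_of_notMem h1]
          by_cases h2 : r ∈ Ioi (0:ℝ)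
          · rw [indicator_of_mem h2]
            simp only [hF1]
            rw [if_neg]
            · simp
            · rw [hcT r h2]
              intro h3
              exact h1 ⟨h2, lt_of_le_of_ne (hTR r h3) hrR⟩
          · rw [indicator_of_notMem h2]
      · exact i1.add (i3.const_mul _)
      · filter_upwards [ae_restrict_mem measurableSet_Ioo] with r hr
        have := Real.negMulLog_nonneg (hφ0 r hr) (hφ1 r hr)
        have := hφ0 r hr
        have := pow_nonneg hr.1.le (n-1)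
        simp only [Pi.zero_apply]
        positivity
    have e2 : ENNReal.ofReal (∫ r in Ioo 0 R, (r ^ (n-1) * (φ r * (Kp + ((n+1)/c) * (r * a)))))
        ≤ ∫⁻ r in Ioi (0:ℝ), ENNReal.ofReal (r ^ (n-1)) * F2 (r • s.1) := by
      rw [ofReal_integral_eq_lintegral_ofReal i2]
      · refine le_trans (le_of_eq ?_) (lintegral_mono_set (s := Ioo 0 R) fun x hx => hx.1)
        refine setLIntegral_congr_fun measurableSet_Ioo fun r hr => ?_
        simp only [hF2]
        rw [if_pos ((hcT r hr.1).2 (hRT r hr)), ← ENNReal.ofReal_mul (pow_nonneg hr.1.le _)]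
        congr 1
        simp only [hφ, hsm, Pi.smul_apply, smul_eq_mul, ha, Finset.mul_sum]
      · filter_upwards [ae_restrict_mem measurableSet_Ioo] with r hr
        have := hφ0 r hr
        have := pow_nonneg hr.1.le (n-1)
        have := hr.1.le
        simp only [Pi.zero_apply]
        positivity
    rw [e1]
    refine le_trans ?_ (add_le_add_left e2 _)
    rw [← ENNReal.ofReal_mul hΘ0, ← ENNReal.ofReal_add]
    · refine ENNReal.ofReal_le_ofReal ?_
      rw [integral_add i1 (i3.const_mul _), integral_const_mul]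
      have e3 : ∫ r in Ioo 0 R, (r ^ (n-1) * (φ r * (Kp + ((n+1)/c) * (r * a))))
          = (∫ r in Ioo 0 R, (r ^ (n-1) * (φ r * (K + ((n+1)/c) * (r * a))))) + Km * ∫ r in Ioo 0 R, (r ^ (n-1) * φ r) := by
        rw [← integral_const_mul, ← integral_add i4 (i3.const_mul _)]
        refine integral_congr_ae (Eventually.of_forall fun r => ?_)
        simp only
        rw [hKK]; ring
      rw [e3]
      linarith
    · refine setIntegral_nonneg measurableSet_Ioo fun r hr => ?_
      have := hφ0 r hr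
      have := pow_nonneg hr.1.le (n-1)
      have := hr.1.le
      positivity
    · positivity
  -- integrate over the sphere
  have hsm : Measurable fun s : Metric.sphere (0 : Fin n → ℝ) 1 =>
      (if ∀ i, 0 ≤ s.1 i then ENNReal.ofReal ((n-1).factorial / (∑ i, s.1 i) ^ n) else 0) := by
    refine Measurable.ite ?_ (by fun_prop) (by fun_prop)
    simp only [setOf_forall]
    exact MeasurableSet.iInter fun i => measurableSet_le measurable_const
      ((measurable_pi_apply i).comp measurable_subtype_coe)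
  have htot : ∫⁻ x, F1 x ≤ (∫⁻ x, F2 x) + ENNReal.ofReal Θ := by
    have hΘ1 : ENNReal.ofReal Θ = ∫⁻ s : Metric.sphere (0 : Fin n → ℝ) 1,
        ENNReal.ofReal Θ * (if ∀ i, 0 ≤ s.1 i then
        ENNReal.ofReal ((n-1).factorial / (∑ i, s.1 i) ^ n) else 0) ∂((volume : Measure (Fin n → ℝ)).toSphere) := by
      rw [lintegral_const_mul _ hsm, sphere_int hn, mul_one]
    rw [polar hn F1 hF1m, polar hn F2 hF2m, hΘ1, ← lintegral_add_right _ (hsm.const_mul _)]
    exact lintegral_mono hray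
  have hl : ∫⁻ x, F1 x = ENNReal.ofReal (∑ α ∈ B, (Real.negMulLog (g α) + κ / c ^ n + Km * g α)) := by
    rw [ENNReal.ofReal_sum_of_nonneg]
    · exact lint_cells B (fun α => ENNReal.ofReal (Real.negMulLog (g α) + κ / c ^ n + Km * g α))
    · intro α hα
      have := Real.negMulLog_nonneg (hg0 α hα) (hgle α hα)
      have := hg0 α hα
      positivity
  have hr : ∫⁻ x, F2 x ≤ ENNReal.ofReal (∑ α ∈ B, (g α * (Kp + ((n+1)/c) * ((∑ i, (α i : ℝ)) + n)))) := by
    rw [ENNReal.ofReal_sum_of_nonneg]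
    · rw [← lint_cells B (fun α => ENNReal.ofReal (g α * (Kp + ((n+1)/c) * ((∑ i, (α i : ℝ)) + n))))]
      refine lintegral_mono fun x => ?_
      simp only [hF2]
      split_ifs with h
      · refine ENNReal.ofReal_le_ofReal (mul_le_mul_of_nonneg_left ?_ (hg0 _ h.2))
        have h2 : ∑ i, x i ≤ ∑ i, ((⌊x i⌋₊ : ℕ) + (1:ℝ)) :=
          Finset.sum_le_sum fun i _ => (Nat.lt_floor_add_one _).le
        rw [Finset.sum_add_distrib] at h2
        simp at h2
        gcongr
      · exact le_rfl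
    · intro α hα
      have := hg0 α hα
      positivity
  have hfin : ENNReal.ofReal (∑ α ∈ B, (Real.negMulLog (g α) + κ / c ^ n + Km * g α)) ≤
      ENNReal.ofReal ((∑ α ∈ B, (g α * (Kp + ((n+1)/c) * ((∑ i, (α i : ℝ)) + n)))) + Θ) := by
    rw [← hl, ENNReal.ofReal_add]
    · exact htot.trans (add_le_add_left hr _)
    · refine Finset.sum_nonneg fun α hα => ?_
      have := hg0 α hα
      positivity
    · exact hΘ0
  rw [ENNReal.ofReal_le_ofReal_iff] at hfin
  · rw [Finset.sum_add_distrib, ← Finset.mul_sum, hg1, Finset.sum_add_distrib, Finset.sum_const,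
      nsmul_eq_mul] at hfin
    have e4 : ∑ α ∈ B, (g α * (Kp + ((n+1)/c) * ((∑ i, (α i : ℝ)) + n)))
        = Kp * ∑ α ∈ B, g α + ((n+1)/c) * ((∑ α ∈ B, g α * (∑ i, (α i : ℝ))) + n * ∑ α ∈ B, g α) := by
      rw [Finset.mul_sum, Finset.mul_sum, ← Finset.sum_add_distrib, Finset.mul_sum, ← Finset.sum_add_distrib]
      refine Finset.sum_congr rfl fun α _ => ?_
      ring
    rw [e4, hg1] at hfin
    rw [hKK]
    linarith
  · refine add_nonneg (Finset.sum_nonneg fun α hα => ?_) hΘ0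
    have := hg0 α hα
    positivity

/-- existence of `κ` -/
theorem exists_kappa {n : ℕ} (hn : 0 < n) {ε Y : ℝ} (hε : 0 < ε) (hY : 1 ≤ Y) :
    ∃ κ > 0, ∀ y, 0 < y → y ≤ Y → κ / n * (y ^ n - 1) ≤
      (n-1).factorial * (1 - Real.exp (-(n * (y - 1 - Real.log y)))) + κ * ε := by
  have hn' : (0:ℝ) < n := by exact_mod_cast hn
  -- threshold
  obtain ⟨y₀, hy₀, hy₀n⟩ : ∃ y₀ : ℝ, 1 < y₀ ∧ y₀ ^ n - 1 ≤ n * ε := by
    have hcont : ContinuousAt (fun y : ℝ => y ^ n - 1) 1 := by fun_prop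
    have h1 : ∀ᶠ y in 𝓝 (1:ℝ), y ^ n - 1 < n * ε := by
      refine hcont.eventually_lt continuousAt_const ?_
      simp; positivity
    obtain ⟨δ, hδ, h2⟩ := Metric.eventually_nhds_iff.1 h1
    refine ⟨1 + δ / 2, by linarith, (h2 (y := 1 + δ / 2) ?_).le⟩
    rw [Real.dist_eq, add_sub_cancel_left, abs_of_pos (by positivity)]
    linarith
  have hD₀ : 0 < y₀ - 1 - Real.log y₀ := by
    have := Real.log_lt_sub_one_of_pos (by linarith : 0 < y₀) hy₀.ne'
    linarith
  set m : ℝ := 1 - Real.exp (-(n * (y₀ - 1 - Real.log y₀))) with hm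
  have hm0 : 0 < m := by
    rw [hm, sub_pos, Real.exp_lt_one_iff]
    have : 0 < n * (y₀ - 1 - Real.log y₀) := by positivity
    linarith
  refine ⟨(n-1).factorial * m * n / Y ^ n, by positivity, ?_⟩
  intro y hy hyY
  set κ : ℝ := (n-1).factorial * m * n / Y ^ n with hκ
  have hκ0 : 0 < κ := by positivity
  have hDy : 0 ≤ y - 1 - Real.log y := by
    have := Real.log_le_sub_one_of_pos hy
    linarith
  have hexp : Real.exp (-(n * (y - 1 - Real.log y))) ≤ 1 := by
    rw [Real.exp_le_one_iff]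
    have : 0 ≤ n * (y - 1 - Real.log y) := by positivity
    linarith
  have hfac : (0:ℝ) ≤ (n-1).factorial * (1 - Real.exp (-(n * (y - 1 - Real.log y)))) := by
    have : (0:ℝ) ≤ 1 - Real.exp (-(n * (y - 1 - Real.log y))) := by linarith
    positivity
  by_cases hyy : y ≤ y₀
  · have h1 : y ^ n - 1 ≤ n * ε := by
      have := pow_le_pow_left₀ hy.le hyy n
      linarith
    have h2 : κ / n * (y ^ n - 1) ≤ κ / n * (n * ε) := mul_le_mul_of_nonneg_left h1 (by positivity)
    have h3 : κ / n * (n * ε) = κ * ε := by field_simp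
    linarith
  · rw [not_le] at hyy
    have h1 : y₀ - 1 - Real.log y₀ ≤ y - 1 - Real.log y := by
      have h2 := Real.log_le_sub_one_of_pos (div_pos hy (by linarith : 0 < y₀))
      rw [Real.log_div hy.ne' (by linarith)] at h2
      have h3 : y / y₀ - 1 ≤ y - y₀ := by
        rw [div_sub_one (by linarith : y₀ ≠ 0), div_le_iff₀ (by linarith)]
        nlinarith
      linarith
    have h4 : m ≤ 1 - Real.exp (-(n * (y - 1 - Real.log y))) := by
      rw [hm]
      have : Real.exp (-(n * (y - 1 - Real.log y))) ≤ Real.exp (-(n * (y₀ - 1 - Real.log y₀))) := by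
        rw [Real.exp_le_exp]
        have := mul_le_mul_of_nonneg_left h1 hn'.le
        linarith
      linarith
    have h5 : κ / n * (y ^ n - 1) ≤ κ / n * Y ^ n := by
      refine mul_le_mul_of_nonneg_left ?_ (by positivity)
      have := pow_le_pow_left₀ hy.le hyY n
      linarith
    have h6 : κ / n * Y ^ n = (n-1).factorial * m := by
      rw [hκ]
      field_simp
    have h7 : ((n-1).factorial : ℝ) * m ≤
        (n-1).factorial * (1 - Real.exp (-(n * (y - 1 - Real.log y)))) :=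
      mul_le_mul_of_nonneg_left h4 (by positivity)
    have : 0 ≤ κ * ε := by positivity
    linarith

end Pool.Agent.helper63.NU.Q1

namespace Pool.Agent.helper63.NU

/-- stability in the entropy inequality `entropy_le` -/
theorem entropy_stab {n : ℕ} (hn : 0 < n) (G : ℕ) {η : ℝ} (hη : 0 < η) :
    ∃ δ > 0, ∃ k₀ : ℕ, ∀ k ≥ k₀, ∀ (B : Finset (Fin n → ℕ)),
      (∀ α ∈ B, ∀ β, β ≤ α → β ∈ B) → (∀ α ∈ B, ∑ i, α i ≤ G * k) →
      ∀ g : (Fin n → ℕ) → ℝ, (∀ α ∈ B, 0 ≤ g α) → ∑ α ∈ B, g α = 1 →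
      (∀ α ∈ B, ∀ β ∈ B, α ≤ β → g α ≤ g β) →
      ∑ α ∈ B, g α * (∑ i, (α i : ℝ)) ≤ (n + δ) * k →
      n * Real.log (k * (n + 1)) - Real.log n.factorial - δ ≤ -∑ α ∈ B, g α * Real.log (g α) →
      (B.card : ℝ) ≤ ((n + 1) ^ n / n.factorial + η) * (k : ℝ) ^ n := by
  have hn' : (0:ℝ) < n := by exact_mod_cast hn
  set A : ℝ := ((n:ℝ) + 1) ^ n with hA
  have hA0 : 0 < A := by positivity
  set Y : ℝ := G + n + 1 with hYdef
  have hY1 : 1 ≤ Y := by
    have : (0:ℝ) ≤ G := Nat.cast_nonneg _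
    rw [hYdef]; linarith
  set ε : ℝ := η * (n-1).factorial / (3 * A) with hεdef
  have hε : 0 < ε := by positivity
  obtain ⟨κ, hκ, hκY⟩ := Q1.exists_kappa hn hε hY1
  set δ : ℝ := η * κ / (6 * A) with hδdef
  have hδ : 0 < δ := by positivity
  obtain ⟨k₁, hk₁⟩ := exists_nat_gt (3 * A * n / (κ * η))
  refine ⟨δ, hδ, k₁ + 1, ?_⟩
  intro k hk B hB hBG g hg0 hg1 hmono hdeg hent
  have hk1 : (1:ℝ) ≤ k := by
    have : 1 ≤ k := by omega
    exact_mod_cast this
  have hk0 : (0:ℝ) < k := by linarith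
  have hkk : 3 * A * n / (κ * η) < k := by
    have : (k₁:ℝ) ≤ k := by
      have : k₁ ≤ k := by omega
      exact_mod_cast this
    linarith
  set c : ℝ := k * (n + 1) with hcdef
  have hc : 0 < c := by positivity
  have hBY : ∀ α ∈ B, (∑ i, (α i : ℝ)) + n ≤ Y * c := by
    intro α hα
    have h1 : (∑ i, (α i : ℝ)) ≤ G * k := by
      have := hBG α hα
      exact_mod_cast this
    have h2 : (0:ℝ) ≤ G := Nat.cast_nonneg _
    have h3 : (0:ℝ) ≤ G * k := by positivity
    rw [hYdef, hcdef]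
    nlinarith [mul_nonneg h3 hn'.le, mul_nonneg hn'.le hk0.le, mul_nonneg (mul_nonneg hn'.le hn'.le) hk0.le]
  have h := Q1.entropy_stab_aux hn B hB g hg0 hg1 hmono hc hκ.le hε.le hBY hκY rfl
  have e2 : ∑ α ∈ B, Real.negMulLog (g α) = -∑ α ∈ B, g α * Real.log (g α) := by
    rw [← Finset.sum_neg_distrib]
    refine Finset.sum_congr rfl fun α _ => ?_
    simp [Real.negMulLog]
  rw [e2] at h
  have h3 : ((n:ℝ)+1)/c * ((∑ α ∈ B, g α * (∑ i, (α i : ℝ))) + n) ≤ n + δ + n / k := by
    have e3 : ((n:ℝ)+1)/c = 1 / k := by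
      rw [hcdef]; field_simp
    rw [e3]
    have h4 : 1 / (k:ℝ) * ((∑ α ∈ B, g α * (∑ i, (α i : ℝ))) + n) ≤ 1 / (k:ℝ) * ((n + δ) * k + n) :=
      mul_le_mul_of_nonneg_left (by linarith) (by positivity)
    refine h4.trans (le_of_eq ?_)
    field_simp
  have h5 : B.card * (κ / c ^ n) ≤ 2 * δ + n / k + κ / n.factorial + κ * ε / (n-1).factorial := by
    linarith
  have hcn : c ^ n = A * k ^ n := by
    rw [hcdef, mul_pow, hA]; ring
  have h6 : (B.card : ℝ) ≤ (2 * δ + n / k + κ / n.factorial + κ * ε / (n-1).factorial) * (A * k ^ n / κ) := by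
    have h7 : (B.card : ℝ) = B.card * (κ / c ^ n) * (A * k ^ n / κ) := by
      rw [hcn]; field_simp
    rw [h7]
    exact mul_le_mul_of_nonneg_right h5 (by positivity)
  refine h6.trans ?_
  have e5 : (2 * δ + n / k + κ / n.factorial + κ * ε / (n-1).factorial) * (A * k ^ n / κ)
      = (A / n.factorial + (2 * δ * A / κ + (n / k) * A / κ + ε * A / (n-1).factorial)) * k ^ n := by
    field_simp
    ring
  rw [e5]
  refine mul_le_mul_of_nonneg_right ?_ (by positivity)
  have e6 : 2 * δ * A / κ = η / 3 := by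
    rw [hδdef]; field_simp; norm_num
  have e7 : ε * A / (n-1).factorial = η / 3 := by
    rw [hεdef]; field_simp
  have e8 : ((n:ℝ) / k) * A / κ ≤ η / 3 := by
    rw [div_lt_iff₀ (by positivity)] at hkk
    rw [div_mul_eq_mul_div, div_div, div_le_div_iff₀ (by positivity) (by norm_num)]
    nlinarith
  rw [e6, e7]
  linarith

end Pool.Agent.helper63.NU
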